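import Mathlib
import Pool.Agent.H34AH.Rand

/-!
# Rounding to signs with a barrier: the error has operator norm at most twice the standard deviation
times the square root of the order
-/

set_option autoImplicit false
set_option linter.unusedSectionVars false

namespace Pool.Agent.H34NI

open Finset Matrix Pool.Agent.H34AH

variable {m : Type*} [Fintype m] [DecidableEq m]

lemma quad_nonneg {S : Matrix m m ℝ} (hS : S.PosSemidef) (v : m → ℝ) : 0 ≤ v ⬝ᵥ (S *ᵥ v) := by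
  have h := hS.dotProduct_mulVec_nonneg v
  simpa using h

lemma symm_of {S : Matrix m m ℝ} (hS : S.PosSemidef) : Sᵀ = S := by
  have h := hS.isHermitian
  rw [Matrix.IsHermitian, Matrix.conjTranspose_eq_transpose_of_trivial] at h
  exact h

/-- the traces of the inverses -/
lemma trace_gap {B : Matrix m m ℝ} (hB : B.PosDef) {δ : ℝ} (hδ : 0 < δ) :
    (B + δ • (1 : Matrix m m ℝ)).PosDef ∧
    δ * ((B + δ • (1 : Matrix m m ℝ))⁻¹ * (B + δ • (1 : Matrix m m ℝ))⁻¹).trace ≤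
      B⁻¹.trace - (B + δ • (1 : Matrix m m ℝ))⁻¹.trace := by
  have hB1 : (B + δ • (1 : Matrix m m ℝ)).PosDef := by
    apply hB.add_posSemidef
    exact Matrix.PosSemidef.one.smul hδ.le
  refine ⟨hB1, ?_⟩
  obtain ⟨Y, hY⟩ : ∃ Y, Y = (B + δ • (1 : Matrix m m ℝ))⁻¹ := ⟨_, rfl⟩
  obtain ⟨X, hX⟩ : ∃ X, X = B⁻¹ := ⟨_, rfl⟩
  have hXY : X - Y = δ • (X * Y) := by
    rw [hX, hY, Matrix.inv_sub_inv ⟨fun _ => hB1.isUnit, fun _ => hB.isUnit⟩, add_sub_cancel_left,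
      Matrix.mul_smul, Matrix.mul_one, Matrix.smul_mul]
  have hXp : X.PosSemidef := by rw [hX]; exact hB.posSemidef.inv
  have hYp : Y.PosSemidef := by rw [hY]; exact hB1.posSemidef.inv
  have hYs := symm_of hYp
  have h1 : X.trace - Y.trace = δ * (X * Y).trace := by
    rw [← Matrix.trace_sub, hXY, Matrix.trace_smul, smul_eq_mul]
  have h2 : (X * Y).trace - (Y * Y).trace = δ * (Y * X * Y).trace := by
    rw [← Matrix.trace_sub, ← Matrix.sub_mul, hXY, Matrix.smul_mul, Matrix.trace_smul, smul_eq_mul,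
      Matrix.mul_assoc Y X Y, Matrix.trace_mul_comm Y (X * Y)]
  have h3 : 0 ≤ (Y * X * Y).trace := by
    have h4 := hXp.conjTranspose_mul_mul_same Y
    rw [Matrix.conjTranspose_eq_transpose_of_trivial, hYs] at h4
    exact h4.trace_nonneg
  rw [← hY, ← hX, h1]
  have h5 : (Y * Y).trace ≤ (X * Y).trace := by nlinarith
  exact mul_le_mul_of_nonneg_left h5 hδ.le

/-- a rank one update of a positive definite matrix -/
lemma rank_one {B : Matrix m m ℝ} (hB : B.PosDef) (v : m → ℝ) (hv : v ⬝ᵥ (B⁻¹ *ᵥ v) < 1) :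
    (B - vecMulVec v v).PosDef ∧ (B - vecMulVec v v)⁻¹.trace =
      B⁻¹.trace + (v ⬝ᵥ ((B⁻¹ * B⁻¹) *ᵥ v)) / (1 - v ⬝ᵥ (B⁻¹ *ᵥ v)) := by
  obtain ⟨Y, hY⟩ : ∃ Y, Y = B⁻¹ := ⟨_, rfl⟩
  rw [← hY] at hv ⊢
  have hYp : Y.PosDef := by rw [hY]; exact hB.inv
  have hYs := symm_of hYp.posSemidef
  have hYB : Y * B = 1 := by
    rw [hY]
    exact Matrix.nonsing_inv_mul _ ((Matrix.isUnit_iff_isUnit_det _).1 hB.isUnit)
  obtain ⟨τ, hτ⟩ : ∃ τ, τ = v ⬝ᵥ (Y *ᵥ v) := ⟨_, rfl⟩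
  rw [← hτ] at hv ⊢
  obtain ⟨c, hc⟩ : ∃ c, c = 1 / (1 - τ) := ⟨_, rfl⟩
  have hτ0 : 0 < 1 - τ := by linarith
  have hc0 : 0 ≤ c := by rw [hc]; positivity
  have hcτ : c * (1 - τ) = 1 := by rw [hc]; field_simp
  obtain ⟨Z, hZ⟩ : ∃ Z, Z = Y + c • vecMulVec (Y *ᵥ v) (Y *ᵥ v) := ⟨_, rfl⟩
  have hZp : Z.PosDef := by
    rw [hZ]
    apply hYp.add_posSemidef
    apply Matrix.PosSemidef.smul _ hc0
    have := Matrix.posSemidef_vecMulVec_self_star (Y *ᵥ v)
    simpa using this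
  have hYvB : (Y *ᵥ v) ᵥ* B = v := by
    rw [← Matrix.vecMul_transpose, hYs, Matrix.vecMul_vecMul, hYB, Matrix.vecMul_one]
  have hZB : Z * (B - vecMulVec v v) = 1 := by
    rw [hZ, Matrix.mul_sub, Matrix.add_mul, Matrix.add_mul, hYB, Matrix.smul_mul, Matrix.smul_mul,
      Matrix.vecMulVec_mul, hYvB, Matrix.mul_vecMulVec, Matrix.vecMulVec_mul_vecMulVec]
    have e1 : (Y *ᵥ v) ⬝ᵥ v = τ := by rw [dotProduct_comm, hτ]
    rw [e1]
    ext i j
    simp only [Matrix.sub_apply, Matrix.add_apply, Matrix.smul_apply, Matrix.vecMulVec_apply, smul_eq_mul,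
      Pi.smul_apply, MulOpposite.smul_eq_mul_unop, MulOpposite.unop_op]
    have e2 : c * ((Y *ᵥ v) i * v j) - (Y *ᵥ v) i * v j - c * (τ * ((Y *ᵥ v) i * v j)) =
      (c * (1 - τ) - 1) * ((Y *ᵥ v) i * v j) := by ring
    rw [hcτ] at e2
    linarith
  have hBZ : (B - vecMulVec v v) = Z⁻¹ := by
    rw [Matrix.inv_eq_right_inv hZB]
  have hZinv : (B - vecMulVec v v)⁻¹ = Z := by
    exact Matrix.inv_eq_left_inv hZB
  refine ⟨by rw [hBZ]; exact hZp.inv, ?_⟩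
  rw [hZinv, hZ, Matrix.trace_add, Matrix.trace_smul, Matrix.trace_vecMulVec, smul_eq_mul]
  congr 1
  have e3 : (Y *ᵥ v) ⬝ᵥ (Y *ᵥ v) = v ⬝ᵥ ((Y * Y) *ᵥ v) := by
    rw [← Matrix.mulVec_mulVec, Matrix.dotProduct_mulVec v Y (Y *ᵥ v), ← Matrix.mulVec_transpose, hYs]
  rw [e3, hc]
  ring

/-- the expectation of a quadratic form in the deviations -/
lemma Ex_quad {p : m → ℝ} {τ : ℝ} (hτ : ∀ i, 1 - p i ^ 2 ≤ τ)
    {S : Matrix m m ℝ} (hS : S.PosSemidef) :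
    Ex p (fun a => (ev p a) ⬝ᵥ (S *ᵥ (ev p a))) ≤ τ * S.trace := by
  have e : (fun a => (ev p a) ⬝ᵥ (S *ᵥ (ev p a))) =
      fun a => ∑ i, ∑ j, S i j * (ev p a i * ev p a j) := by
    funext a
    simp only [dotProduct, Matrix.mulVec]
    refine sum_congr rfl fun i _ => ?_
    rw [mul_sum]
    exact sum_congr rfl fun j _ => by ring
  rw [e, Ex_sum, Matrix.trace, mul_sum]
  apply sum_le_sum
  intro i _
  rw [Ex_sum, sum_eq_single i]
  · rw [Ex_mul]
    have e1 : (fun a => ev p a i * ev p a i) = fun a => ev p a i ^ 2 := by funext a; ring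
    rw [e1, Ex_sq, mul_comm τ]
    exact mul_le_mul_of_nonneg_left (hτ i) hS.diag_nonneg
  · intro j _ hj
    rw [Ex_mul, Ex_pair (Ne.symm hj), mul_zero]
  · intro h; exact absurd (mem_univ i) h

/-- one step of the barrier argument -/
theorem step {p : m → ℝ} (hp : ∀ i, |p i| ≤ 1) {τ : ℝ} (hτ : ∀ i, 1 - p i ^ 2 ≤ τ) (hτ0 : 0 < τ)
    [Nonempty m] {B : Matrix m m ℝ} (hB : B.PosDef) (htr : B⁻¹.trace ≤ 1 / (2 * τ)) :
    ∃ a : m → Bool, (B + (2 * τ) • (1 : Matrix m m ℝ) - vecMulVec (ev p a) (ev p a)).PosDef ∧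
      (B + (2 * τ) • (1 : Matrix m m ℝ) - vecMulVec (ev p a) (ev p a))⁻¹.trace ≤ 1 / (2 * τ) := by
  obtain ⟨hB1, hgap⟩ := trace_gap hB (show 0 < 2 * τ by linarith)
  obtain ⟨B', hB'⟩ : ∃ B', B' = B + (2 * τ) • (1 : Matrix m m ℝ) := ⟨_, rfl⟩
  rw [← hB'] at hB1 hgap ⊢
  obtain ⟨Y, hY⟩ : ∃ Y, Y = B'⁻¹ := ⟨_, rfl⟩
  have hYp : Y.PosDef := by rw [hY]; exact hB1.inv
  have hYs := symm_of hYp.posSemidef
  have hYY : (Y * Y).PosDef := by
    have h1 := Matrix.PosDef.conjTranspose_mul_self Y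
      (Matrix.mulVec_injective_iff_isUnit.2 hYp.isUnit)
    rwa [Matrix.conjTranspose_eq_transpose_of_trivial, hYs] at h1
  obtain ⟨g, hg⟩ : ∃ g, g = B⁻¹.trace - Y.trace := ⟨_, rfl⟩
  rw [← hY, ← hg] at hgap
  have hYYpos : 0 < (Y * Y).trace := hYY.trace_pos
  have hg0 : 0 < g := lt_of_lt_of_le (by positivity) hgap
  have hYtr : Y.trace ≤ 1 / (2 * τ) := by linarith
  have hE : Ex p (fun a => (ev p a) ⬝ᵥ ((Y * Y) *ᵥ (ev p a)) + g * ((ev p a) ⬝ᵥ (Y *ᵥ (ev p a)))) ≤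
      g := by
    rw [Ex_add, Ex_mul]
    have h1 := Ex_quad hτ hYY.posSemidef
    have h2 := Ex_quad hτ hYp.posSemidef
    have h3 : g * Ex p (fun a => (ev p a) ⬝ᵥ (Y *ᵥ (ev p a))) ≤ g * (1 / 2) := by
      apply mul_le_mul_of_nonneg_left _ hg0.le
      refine h2.trans ?_
      calc τ * Y.trace ≤ τ * (1 / (2 * τ)) := mul_le_mul_of_nonneg_left hYtr hτ0.le
        _ = 1 / 2 := by field_simp
    linarith
  obtain ⟨a, ha⟩ := Ex_exists hp hE
  obtain ⟨v, hv⟩ : ∃ v, v = ev p a := ⟨_, rfl⟩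
  rw [← hv] at ha
  have hY2 : 0 ≤ v ⬝ᵥ ((Y * Y) *ᵥ v) := quad_nonneg hYY.posSemidef v
  have hlt : v ⬝ᵥ (Y *ᵥ v) < 1 := by
    by_cases hv0 : v = 0
    · rw [hv0]; simp
    · have h1 : 0 < v ⬝ᵥ ((Y * Y) *ᵥ v) := by
        have := hYY.dotProduct_mulVec_pos hv0
        simpa using this
      by_contra hcon
      push Not at hcon
      nlinarith
  obtain ⟨h1, h2⟩ := rank_one hB1 v (by rw [← hY]; exact hlt)
  refine ⟨a, by rw [← hv]; exact h1, ?_⟩
  rw [← hv, h2, ← hY]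
  have h3 : (v ⬝ᵥ ((Y * Y) *ᵥ v)) / (1 - v ⬝ᵥ (Y *ᵥ v)) ≤ g := by
    rw [div_le_iff₀ (by linarith)]
    linarith
  linarith

/-- the iteration -/
theorem iterate {κ : Type*} [DecidableEq κ] (P : κ → m → ℝ) (hP : ∀ j i, |P j i| ≤ 1) {τ : ℝ}
    (hτ : ∀ j i, 1 - P j i ^ 2 ≤ τ) (hτ0 : 0 < τ) [Nonempty m] (s : Finset κ) :
    ∃ a : κ → m → Bool,
      ((2 * τ * (Fintype.card m + s.card)) • (1 : Matrix m m ℝ) -
        ∑ j ∈ s, vecMulVec (ev (P j) (a j)) (ev (P j) (a j))).PosDef ∧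
      ((2 * τ * (Fintype.card m + s.card)) • (1 : Matrix m m ℝ) -
        ∑ j ∈ s, vecMulVec (ev (P j) (a j)) (ev (P j) (a j)))⁻¹.trace ≤ 1 / (2 * τ) := by
  have hm : (0 : ℝ) < Fintype.card m := by exact_mod_cast Fintype.card_pos
  induction s using Finset.induction_on with
  | empty =>
    refine ⟨fun _ _ => true, ?_⟩
    simp only [card_empty, Nat.cast_zero, add_zero, sum_empty, sub_zero]
    have hc : 0 < 2 * τ * (Fintype.card m : ℝ) := by positivity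
    refine ⟨Matrix.PosDef.one.smul hc, ?_⟩
    have e1 : ((2 * τ * (Fintype.card m : ℝ)) • (1 : Matrix m m ℝ))⁻¹ =
        (2 * τ * (Fintype.card m : ℝ))⁻¹ • (1 : Matrix m m ℝ) := by
      apply Matrix.inv_eq_left_inv
      rw [Matrix.smul_mul, Matrix.one_mul, smul_smul, inv_mul_cancel₀ hc.ne', one_smul]
    rw [e1, Matrix.trace_smul, Matrix.trace_one, smul_eq_mul]
    apply le_of_eq
    field_simp
  | insert k s hk ih =>
    obtain ⟨a, h1, h2⟩ := ih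
    obtain ⟨b, h3, h4⟩ := step (hP k) (hτ k) hτ0 h1 h2
    refine ⟨Function.update a k b, ?_⟩
    have e1 : (2 * τ * (Fintype.card m + (insert k s).card)) • (1 : Matrix m m ℝ) -
        ∑ j ∈ insert k s, vecMulVec (ev (P j) (Function.update a k b j)) (ev (P j) (Function.update a k b j)) =
        (2 * τ * (Fintype.card m + s.card)) • (1 : Matrix m m ℝ) -
        ∑ j ∈ s, vecMulVec (ev (P j) (a j)) (ev (P j) (a j)) + (2 * τ) • (1 : Matrix m m ℝ) -
        vecMulVec (ev (P k) b) (ev (P k) b) := by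
      rw [sum_insert hk, Function.update_self, card_insert_of_notMem hk]
      have e2 : ∑ j ∈ s, vecMulVec (ev (P j) (Function.update a k b j)) (ev (P j) (Function.update a k b j)) =
          ∑ j ∈ s, vecMulVec (ev (P j) (a j)) (ev (P j) (a j)) := by
        refine sum_congr rfl fun j hj => ?_
        rw [Function.update_of_ne]
        rintro rfl
        exact hk hj
      rw [e2]
      push_cast
      have e3 : (2 * τ * ((Fintype.card m : ℝ) + (s.card + 1))) • (1 : Matrix m m ℝ) =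
        (2 * τ * (Fintype.card m + s.card)) • (1 : Matrix m m ℝ) + (2 * τ) • (1 : Matrix m m ℝ) := by
        rw [← add_smul]
        congr 1
        ring
      rw [e3]
      abel
    rw [e1]
    exact ⟨h3, h4⟩

/-- rounding a matrix to signs: the square of the operator norm of the error is at most
`2 τ (rows + columns)` -/
theorem exists_round {κ : Type*} [Fintype κ] [DecidableEq κ] (P : κ → m → ℝ)
    (hP : ∀ j i, |P j i| ≤ 1) {τ : ℝ} (hτ : ∀ j i, 1 - P j i ^ 2 ≤ τ) (hτ0 : 0 < τ) [Nonempty m] :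
    ∃ a : κ → m → Bool, ∀ y : m → ℝ, ∑ j, (∑ i, (sgn (a j i) - P j i) * y i) ^ 2 ≤
      2 * τ * (Fintype.card m + Fintype.card κ) * ∑ i, y i ^ 2 := by
  obtain ⟨a, h1, -⟩ := iterate P hP hτ hτ0 univ
  refine ⟨a, fun y => ?_⟩
  have h2 := quad_nonneg h1.posSemidef y
  rw [card_univ, Matrix.sub_mulVec, Matrix.smul_mulVec, Matrix.one_mulVec, dotProduct_sub,
    dotProduct_smul, smul_eq_mul, Matrix.sum_mulVec, dotProduct_sum] at h2
  have e1 : ∀ j, y ⬝ᵥ (vecMulVec (ev (P j) (a j)) (ev (P j) (a j)) *ᵥ y) =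
      (∑ i, (sgn (a j i) - P j i) * y i) ^ 2 := by
    intro j
    rw [sq, sum_mul_sum]
    simp only [dotProduct, Matrix.mulVec, Matrix.vecMulVec_apply, ev]
    refine sum_congr rfl fun i _ => ?_
    rw [mul_sum]
    exact sum_congr rfl fun l _ => by ring
  have e2 : y ⬝ᵥ y = ∑ i, y i ^ 2 := by
    simp only [dotProduct]
    exact sum_congr rfl fun i _ => by ring
  rw [sum_congr rfl fun j _ => e1 j, e2] at h2
  linarith

end Pool.Agent.H34NI
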