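import Mathlib
import Pool.Agent.H34AH.Main
import Pool.Agent.H34FO.Upper
import Pool.Agent.H34NI.Barrier

/-!
# Sign matrices which are nearly orthogonal, in every order
-/

set_option autoImplicit false
set_option linter.unusedSectionVars false

namespace Pool.Agent.H34NI

open Finset Matrix Pool.Agent.H34AH

/-- near isometries from flat orthogonal matrices -/
theorem of_flat {n : ℕ} (hn : 1 ≤ n) {M : Matrix (Fin n) (Fin n) ℝ}
    (hM : M * Mᵀ = (n : ℝ) • (1 : Matrix (Fin n) (Fin n) ℝ)) {η : ℝ} (hη0 : 0 < η) (hη1 : η ≤ 1)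
    (hMe : ∀ i j, |(|M i j| - 1)| ≤ η) :
    ∃ A : Matrix (Fin n) (Fin n) ℝ, (∀ i j, A i j = 1 ∨ A i j = -1) ∧
      ∀ x : Fin n → ℝ, |nsq (A *ᵥ x) - n * nsq x| ≤
        (n * (8 * √η + 18 * η)) * nsq x := by
  have hn0 : (0 : ℝ) < n := by exact_mod_cast hn
  have : Nonempty (Fin n) := ⟨⟨0, hn⟩⟩
  obtain ⟨T, hT⟩ : ∃ T : Matrix (Fin n) (Fin n) ℝ, T = (1 - η) • M := ⟨_, rfl⟩
  have hTe : ∀ i j, |T i j| ≤ 1 ∧ 1 - T i j ^ 2 ≤ 4 * η := by
    intro i j
    have e1 : T i j = (1 - η) * M i j := by rw [hT, Matrix.smul_apply, smul_eq_mul]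
    rw [e1]
    have h1 := hMe i j
    rcases le_or_gt 0 (M i j) with h | h
    · rw [abs_of_nonneg h] at h1
      exact near_sign (Or.inl rfl) hη0.le hη1 h1
    · rw [abs_of_neg h] at h1
      refine near_sign (e := -1) (Or.inr rfl) hη0.le hη1 ?_
      have e2 : M i j - -1 = -(-M i j - 1) := by ring
      rw [e2, abs_neg]
      exact h1
  obtain ⟨a, ha⟩ := exists_round (fun j i => T j i) (fun j i => (hTe j i).1)
    (fun j i => (hTe j i).2) (by positivity)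
  obtain ⟨A, hA⟩ : ∃ A : Matrix (Fin n) (Fin n) ℝ, A = Matrix.of fun i j => sgn (a i j) := ⟨_, rfl⟩
  refine ⟨A, ?_, fun x => ?_⟩
  · intro i j
    simp only [hA, Matrix.of_apply, sgn]
    split_ifs
    · left; rfl
    · right; rfl
  · have hMM : Mᵀ * M = (n : ℝ) • (1 : Matrix (Fin n) (Fin n) ℝ) := by
      have h1 : M * ((1 / (n : ℝ)) • Mᵀ) = 1 := by
        rw [Matrix.mul_smul, hM, smul_smul, one_div, inv_mul_cancel₀ hn0.ne', one_smul]
      have h2 := mul_eq_one_comm.1 h1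
      rw [Matrix.smul_mul] at h2
      have h3 := congrArg (fun Z => (n : ℝ) • Z) h2
      rwa [smul_smul, mul_one_div, div_self hn0.ne', one_smul] at h3
    have hMx : nsq (M *ᵥ x) = n * nsq x := by
      rw [← dot_self, Matrix.dotProduct_mulVec, ← Matrix.mulVec_transpose, Matrix.mulVec_mulVec,
        hMM, Matrix.smul_mulVec, Matrix.one_mulVec, smul_dotProduct, dot_self, smul_eq_mul]
    have hTx : nsq (T *ᵥ x) = (1 - η) ^ 2 * (n * nsq x) := by
      rw [← hMx, hT, Matrix.smul_mulVec]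
      simp only [nsq, Pi.smul_apply, smul_eq_mul]
      rw [mul_sum]
      exact sum_congr rfl fun i _ => by ring
    have hE : nsq ((A - T) *ᵥ x) ≤ 16 * η * (n * nsq x) := by
      have g1 := ha x
      have g2 : nsq ((A - T) *ᵥ x) = ∑ j, (∑ i, (sgn (a j i) - T j i) * x i) ^ 2 := by
        simp only [nsq, Matrix.mulVec, dotProduct, Matrix.sub_apply, hA, Matrix.of_apply]
      rw [g2]
      refine g1.trans (le_of_eq ?_)
      rw [Fintype.card_fin, nsq]
      ring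
    have hAx : A *ᵥ x = T *ᵥ x + (A - T) *ᵥ x := by
      rw [← Matrix.add_mulVec]
      congr 1
      abel
    obtain ⟨q, hq⟩ : ∃ q, q = (n : ℝ) * nsq x := ⟨_, rfl⟩
    have hq0 : 0 ≤ q := by rw [hq]; exact mul_nonneg hn0.le (nsq_nonneg x)
    rw [← hq] at hTx hE
    have hcross : |(T *ᵥ x) ⬝ᵥ ((A - T) *ᵥ x)| ≤ 4 * √η * q := by
      apply abs_le_of_sq_le_sq _ (by positivity)
      refine (dot_sq_le _ _).trans ?_
      have hs := Real.sq_sqrt hη0.le
      have h1 : (1 - η) ^ 2 * q ≤ 1 * q := by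
        apply mul_le_mul_of_nonneg_right _ hq0
        nlinarith
      calc nsq (T *ᵥ x) * nsq ((A - T) *ᵥ x) ≤ (1 * q) * (16 * η * q) := by
            apply mul_le_mul _ hE (nsq_nonneg _) (by linarith)
            rw [hTx]; exact h1
        _ = (4 * √η * q) ^ 2 := by rw [mul_pow, mul_pow, hs]; ring
    have h5 := nsq_add (T *ᵥ x) ((A - T) *ᵥ x)
    rw [← hAx] at h5
    rw [h5, hTx, ← hq]
    have hE0 := nsq_nonneg ((A - T) *ᵥ x)
    have h6 := abs_le.1 hcross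
    have e3 : (n : ℝ) * (8 * √η + 18 * η) * nsq x = 8 * √η * q + 18 * η * q := by rw [hq]; ring
    rw [e3]
    have h7 : 0 ≤ η * q := by positivity
    have h8 : 0 ≤ η * η * q := by positivity
    have h9 : η * η * q ≤ η * q := by
      have : η * η * q ≤ η * 1 * q := by
        apply mul_le_mul_of_nonneg_right _ hq0
        exact mul_le_mul_of_nonneg_left hη1 hη0.le
      linarith
    have h10 : (1 - η) ^ 2 * q = q - 2 * (η * q) + η * η * q := by ring
    rw [h10, abs_le]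
    constructor
    · linarith
    · linarith

/-- the bound for the all-one matrix -/
theorem ones_bound {n : ℕ} (x : Fin n → ℝ) :
    |nsq ((Matrix.of fun _ _ => (1 : ℝ) : Matrix (Fin n) (Fin n) ℝ) *ᵥ x) - n * nsq x| ≤
      (n : ℝ) ^ 2 * nsq x := by
  have h1 : nsq ((Matrix.of fun _ _ => (1 : ℝ) : Matrix (Fin n) (Fin n) ℝ) *ᵥ x) =
      n * (∑ i, x i) ^ 2 := by
    simp only [nsq, Matrix.mulVec, dotProduct, Matrix.of_apply, one_mul, sum_const, card_univ,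
      Fintype.card_fin, nsmul_eq_mul]
  have h2 : (∑ i, x i) ^ 2 ≤ n * nsq x := by
    have h3 := sq_sum_le_card_mul_sum_sq (s := (univ : Finset (Fin n))) (f := x)
    rw [card_univ, Fintype.card_fin] at h3
    exact h3
  have h0 := nsq_nonneg x
  have hn : (0 : ℝ) ≤ n := Nat.cast_nonneg _
  rw [h1, abs_le]
  rcases Nat.eq_zero_or_pos n with rfl | hpos
  · simp
  have hn1 : (1 : ℝ) ≤ n := by exact_mod_cast hpos
  have h3 : (n : ℝ) * (∑ i, x i) ^ 2 ≤ n * (n * nsq x) := mul_le_mul_of_nonneg_left h2 hn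
  have h4 : 0 ≤ (n : ℝ) * (∑ i, x i) ^ 2 := by positivity
  have h5 : (n : ℝ) * nsq x ≤ n ^ 2 * nsq x := by
    apply mul_le_mul_of_nonneg_right _ h0
    nlinarith
  have h6 : 0 ≤ (n : ℝ) * nsq x := by positivity
  constructor
  · linarith
  · have : (n : ℝ) * (n * nsq x) = n ^ 2 * nsq x := by ring
    linarith

/-- near isometries in all orders -/
theorem near : ∃ C : ℕ, ∀ k n : ℕ, 1 ≤ n → n ≤ Pool.Agent.W851.Had.tow k →
    ∃ A : Matrix (Fin n) (Fin n) ℝ, (∀ i j, A i j = 1 ∨ A i j = -1) ∧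
      ∀ x : Fin n → ℝ, |nsq (A *ᵥ x) - n * nsq x| ≤
        2 ^ C ^ (k + 1) * (n : ℝ) ^ (3 / 4 : ℝ) * nsq x := by
  obtain ⟨C₀, h⟩ := Pool.Agent.H34FO.upper
  refine ⟨3 * C₀ + 5, fun k n hn hnk => ?_⟩
  obtain ⟨M, hM, hMe⟩ := h k n hn hnk
  obtain ⟨K, hK⟩ : ∃ K : ℝ, K = 2 ^ C₀ ^ (k + 1) := ⟨_, rfl⟩
  rw [← hK] at hMe
  have hK1 : 1 ≤ K := by rw [hK]; exact one_le_pow₀ (by norm_num)
  have hn0 : (0 : ℝ) < n := by exact_mod_cast hn
  have hn1 : (1 : ℝ) ≤ n := by exact_mod_cast hn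
  obtain ⟨w, hw⟩ : ∃ w : ℝ, w = (n : ℝ) ^ (1 / 4 : ℝ) := ⟨_, rfl⟩
  have hw0 : 0 < w := by rw [hw]; positivity
  have hw1 : 1 ≤ w := by rw [hw]; exact Real.one_le_rpow hn1 (by norm_num)
  have hw4 : w ^ 4 = n := by
    rw [hw, ← Real.rpow_natCast, ← Real.rpow_mul hn0.le]; norm_num
  have hw3 : (n : ℝ) ^ (3 / 4 : ℝ) = w ^ 3 := by
    rw [hw, ← Real.rpow_natCast, ← Real.rpow_mul hn0.le]; norm_num
  have hsn : √(n : ℝ) = w ^ 2 := by
    rw [← hw4, show w ^ 4 = (w ^ 2) ^ 2 by ring]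
    exact Real.sqrt_sq (by positivity)
  have hbig : 32 * K ^ 3 ≤ 2 ^ (3 * C₀ + 5) ^ (k + 1) := by
    have h1 : (3 * C₀) ^ (k + 1) + 5 ^ (k + 1) ≤ (3 * C₀ + 5) ^ (k + 1) :=
      Pool.Agent.H34FO.pow_add_le _ _ k
    have h2 : 5 ≤ 5 ^ (k + 1) := Nat.le_self_pow (by omega) 5
    have h3 : 3 * C₀ ^ (k + 1) ≤ (3 * C₀) ^ (k + 1) := by
      rw [mul_pow]
      exact Nat.mul_le_mul_right _ (Nat.le_self_pow (by omega) 3)
    have h4 : 3 * C₀ ^ (k + 1) + 5 ≤ (3 * C₀ + 5) ^ (k + 1) := by omega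
    have h5 : 32 * K ^ 3 = 2 ^ (3 * C₀ ^ (k + 1) + 5) := by
      rw [hK]
      generalize C₀ ^ (k + 1) = t
      rw [pow_add, mul_comm 3 t, pow_mul]
      norm_num
      ring
    rw [h5]
    exact pow_le_pow_right₀ (by norm_num) h4
  rw [hw3]
  have key : ∀ x : Fin n → ℝ, 32 * K ^ 3 * w ^ 3 * nsq x ≤ 2 ^ (3 * C₀ + 5) ^ (k + 1) * w ^ 3 * nsq x :=
    fun x => mul_le_mul_of_nonneg_right (mul_le_mul_of_nonneg_right hbig (by positivity))
      (nsq_nonneg x)
  have hKK : K ≤ K ^ 3 := by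
    calc K = K ^ 1 := (pow_one K).symm
      _ ≤ K ^ 3 := pow_le_pow_right₀ hK1 (by norm_num)
  rcases le_or_gt (K / √(n : ℝ)) 1 with hc | hc
  · obtain ⟨A, hA, hAx⟩ := of_flat hn hM (η := K / √(n : ℝ)) (by positivity) hc hMe
    refine ⟨A, hA, fun x => (hAx x).trans (le_trans ?_ (key x))⟩
    apply mul_le_mul_of_nonneg_right _ (nsq_nonneg x)
    have h1 : √(K / √(n : ℝ)) ≤ K / w := by
      rw [hsn]
      apply Real.sqrt_le_iff.2
      refine ⟨by positivity, ?_⟩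
      rw [div_pow]
      apply div_le_div_of_nonneg_right _ (by positivity)
      nlinarith
    have h2 : K / √(n : ℝ) ≤ K / w := by
      rw [hsn]
      apply div_le_div_of_nonneg_left (by linarith) hw0
      nlinarith
    have h3 : (n : ℝ) * (8 * √(K / √(n : ℝ)) + 18 * (K / √(n : ℝ))) ≤ n * (26 * (K / w)) := by
      apply mul_le_mul_of_nonneg_left _ hn0.le
      linarith
    refine h3.trans ?_
    have h4 : (n : ℝ) * (26 * (K / w)) = 26 * K * w ^ 3 := by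
      rw [← hw4]
      field_simp
    rw [h4]
    apply mul_le_mul_of_nonneg_right _ (by positivity)
    linarith
  · refine ⟨Matrix.of fun _ _ => 1, fun i j => Or.inl rfl, fun x => (ones_bound x).trans
      (le_trans ?_ (key x))⟩
    apply mul_le_mul_of_nonneg_right _ (nsq_nonneg x)
    have h1 : w ^ 2 < K := by
      rw [hsn, lt_div_iff₀ (by positivity), one_mul] at hc
      exact hc
    have h2 : w ^ 5 ≤ K ^ 3 := by
      calc w ^ 5 ≤ w ^ 6 := pow_le_pow_right₀ hw1 (by norm_num)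
        _ = (w ^ 2) ^ 3 := by ring
        _ ≤ K ^ 3 := pow_le_pow_left₀ (by positivity) h1.le 3
    have h3 : (n : ℝ) ^ 2 = w ^ 5 * w ^ 3 := by rw [← hw4]; ring
    rw [h3]
    apply mul_le_mul_of_nonneg_right _ (by positivity)
    have : 0 ≤ K ^ 3 := by positivity
    linarith

end Pool.Agent.H34NI
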